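import Pool.Agent.H53.UK.Targets
import Pool.Agent.H5.FLX.CHX

/-!
MP_c62aed_lc, uniformly random `k`-CNFs: row CHU (Chernoff and the union bound).
-/

set_option autoImplicit false

namespace Pool.Agent.H80.UK

open Finset
open Pool.Agent.H53.UK
open Pool.Agent.H53.MC (Clause Falsified)

section

variable {n k m : ℕ} (x : Fin n → Bool) (ε : ℝ)

private theorem fals (c : KC n k) : Falsified (toCl c) x ↔ ∀ i ∈ c.1.1, c.2 i = !x i := by
  unfold Falsified toCl
  constructor
  · intro h i hi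
    have h1 := h (i, c.2 i) (Finset.mem_image_of_mem _ hi)
    revert h1
    cases x i <;> cases c.2 i <;> simp
  · intro h l hl
    obtain ⟨i, hi, rfl⟩ := Finset.mem_image.1 hl
    have h1 := h i hi
    simp only
    rw [h1]
    cases x i <;> simp

open Classical in
/-- the exponential weight -/
private noncomputable def wt (c : KC n k) : ℝ :=
  if ∀ i ∈ c.1.1, c.2 i = !x i then Real.exp (-ε) else 1

private theorem wt_sum_sign (A : {A : Finset (Fin n) // A.card = k}) :
    ∑ s : Fin n → Bool, wt x ε ((A, s) : KC n k) =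
      2 ^ n * (1 - (1 - Real.exp (-ε)) / 2 ^ k) := by
  classical
  have h1 : ∀ s : Fin n → Bool, wt x ε ((A, s) : KC n k) =
      1 - (if ∀ i ∈ A.1, s i = !x i then (1 - Real.exp (-ε)) else 0) := by
    intro s
    unfold wt
    simp only
    split_ifs <;> ring
  have h2 := Pool.Agent.H5.FLX.chx_card A.1 A.2 x
  have h3 : (((univ.filter fun s : Fin n → Bool => ∀ i ∈ A.1, s i = !x i).card : ℕ) : ℝ) =
      2 ^ n / 2 ^ k := by
    rw [eq_div_iff (by positivity)]
    exact_mod_cast h2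
  rw [Finset.sum_congr rfl fun s _ => h1 s, Finset.sum_sub_distrib, ← Finset.sum_filter,
    Finset.sum_const, Finset.sum_const, nsmul_eq_mul, nsmul_eq_mul, h3]
  simp
  ring

private theorem wt_sum : ∑ c : KC n k, wt x ε c =
    (Nat.card (KC n k) : ℝ) * (1 - (1 - Real.exp (-ε)) / 2 ^ k) := by
  classical
  rw [Fintype.sum_prod_type, Finset.sum_congr rfl fun A _ => wt_sum_sign x ε A,
    Finset.sum_const, Finset.card_univ, nsmul_eq_mul, Nat.card_eq_fintype_card,
    Fintype.card_prod, Fintype.card_fun, Fintype.card_bool, Fintype.card_fin]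
  push_cast
  ring

private theorem wt_prod (F : KCNF n k m) : ∏ j, wt x ε (F j) =
    Real.exp (-ε * (Nat.card {j // Falsified (toCl (F j)) x} : ℝ)) := by
  classical
  have h1 : ∀ j, wt x ε (F j) =
      Real.exp (-ε * (if Falsified (toCl (F j)) x then 1 else 0)) := by
    intro j
    unfold wt
    by_cases h : Falsified (toCl (F j)) x
    · rw [if_pos h, if_pos ((fals x (F j)).1 h), mul_one]
    · rw [if_neg h, if_neg (fun hh => h ((fals x (F j)).2 hh)), mul_zero, Real.exp_zero]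
  rw [Finset.prod_congr rfl fun j _ => h1 j, ← Real.exp_sum, ← Finset.mul_sum]
  congr 2
  rw [Nat.card_eq_fintype_card, Fintype.card_subtype, Finset.sum_boole]

private theorem card_N :
    (Nat.card (KCNF n k m) : ℝ) = (Nat.card (KC n k) : ℝ) ^ m := by
  rw [Nat.card_eq_fintype_card, Nat.card_eq_fintype_card]
  simp only [KCNF, Fintype.card_fun, Fintype.card_fin, Nat.cast_pow]

private theorem total (_h0 : 0 ≤ ε) : ∑ F : KCNF n k m,
    Real.exp (-ε * (Nat.card {j // Falsified (toCl (F j)) x} : ℝ)) ≤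
      (Nat.card (KCNF n k m) : ℝ) * Real.exp (-(1 - Real.exp (-ε)) * m / 2 ^ k) := by
  classical
  have h1 : ∑ F : KCNF n k m, Real.exp (-ε * (Nat.card {j // Falsified (toCl (F j)) x} : ℝ)) =
      ∏ _j : Fin m, ∑ c : KC n k, wt x ε c := by
    rw [Finset.prod_univ_sum, Fintype.piFinset_univ]
    exact Finset.sum_congr rfl fun F _ => (wt_prod x ε F).symm
  have h2 : (Nat.card (KC n k) : ℝ) * (1 - (1 - Real.exp (-ε)) / 2 ^ k) ≤
      (Nat.card (KC n k) : ℝ) * Real.exp (-(1 - Real.exp (-ε)) / 2 ^ k) := by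
    have h3 := Real.add_one_le_exp (-(1 - Real.exp (-ε)) / 2 ^ k)
    refine mul_le_mul_of_nonneg_left ?_ (by positivity)
    refine le_trans (le_of_eq ?_) h3
    ring
  have h4 : 0 ≤ (Nat.card (KC n k) : ℝ) * (1 - (1 - Real.exp (-ε)) / 2 ^ k) := by
    have h5 : (1 - Real.exp (-ε)) / 2 ^ k ≤ 1 := by
      rw [div_le_one (by positivity)]
      have h6 := Real.exp_pos (-ε)
      have h7 : (1 : ℝ) ≤ 2 ^ k := one_le_pow₀ (by norm_num)
      linarith
    exact mul_nonneg (by positivity) (by linarith)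
  rw [h1, wt_sum, Finset.prod_const, Finset.card_univ, Fintype.card_fin, card_N]
  calc ((Nat.card (KC n k) : ℝ) * (1 - (1 - Real.exp (-ε)) / 2 ^ k)) ^ m
      ≤ ((Nat.card (KC n k) : ℝ) * Real.exp (-(1 - Real.exp (-ε)) / 2 ^ k)) ^ m :=
        pow_le_pow_left₀ h4 h2 _
    _ = (Nat.card (KC n k) : ℝ) ^ m * Real.exp (-(1 - Real.exp (-ε)) * m / 2 ^ k) := by
        rw [mul_pow, ← Real.exp_nat_mul]
        congr 2
        ring

end

theorem pf_CHU : T_CHU := by
  classical
  intro ε n t k m h0 h1 ht hnt hbig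
  set D : ℝ := (m : ℝ) / 2 ^ k with hD
  set N : ℝ := (Nat.card (KCNF n k m) : ℝ) with hN
  have hN0 : 0 ≤ N := Nat.cast_nonneg _
  have hDε : 4 * (t : ℝ) ≤ ε ^ 2 * D := by
    rw [hD, ← mul_div_assoc, le_div_iff₀ (by positivity)]
    exact hbig
  have hD0 : 0 ≤ D := by positivity
  -- the bad formulas
  let Bx : (Fin n → Bool) → Finset (KCNF n k m) := fun x =>
    univ.filter fun F => (Nat.card {j // Falsified (toCl (F j)) x} : ℝ) < (1 - ε) * m / 2 ^ k
  have hBx : ∀ x, ((Bx x).card : ℝ) ≤ N * Real.exp (-2 * t) := by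
    intro x
    have h2 := total (n := n) (k := k) (m := m) x ε h0.le
    have h3 : ((Bx x).card : ℝ) * Real.exp (-ε * ((1 - ε) * m / 2 ^ k)) ≤
        ∑ F : KCNF n k m, Real.exp (-ε * (Nat.card {j // Falsified (toCl (F j)) x} : ℝ)) := by
      rw [← nsmul_eq_mul]
      refine (Finset.card_nsmul_le_sum (Bx x) (fun F =>
        Real.exp (-ε * (Nat.card {j // Falsified (toCl (F j)) x} : ℝ))) _ ?_).trans
        (Finset.sum_le_sum_of_subset_of_nonneg (Finset.subset_univ _)
          fun F _ _ => (Real.exp_pos _).le)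
      intro F hF
      have h4 := (Finset.mem_filter.1 hF).2
      apply Real.exp_le_exp.2
      nlinarith
    have h5 : ((Bx x).card : ℝ) ≤ N * Real.exp (-(1 - Real.exp (-ε)) * m / 2 ^ k) *
        Real.exp (ε * ((1 - ε) * m / 2 ^ k)) := by
      have h6 : 0 < Real.exp (ε * ((1 - ε) * m / 2 ^ k)) := Real.exp_pos _
      have h7 : Real.exp (-ε * ((1 - ε) * m / 2 ^ k)) *
          Real.exp (ε * ((1 - ε) * m / 2 ^ k)) = 1 := by
        rw [← Real.exp_add, neg_mul, neg_add_cancel, Real.exp_zero]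
      calc ((Bx x).card : ℝ) = ((Bx x).card : ℝ) * Real.exp (-ε * ((1 - ε) * m / 2 ^ k)) *
            Real.exp (ε * ((1 - ε) * m / 2 ^ k)) := by rw [mul_assoc, h7, mul_one]
        _ ≤ _ := mul_le_mul_of_nonneg_right (h3.trans h2) h6.le
    refine h5.trans ?_
    rw [mul_assoc, ← Real.exp_add]
    refine mul_le_mul_of_nonneg_left (Real.exp_le_exp.2 ?_) hN0
    have h8 : -(1 - Real.exp (-ε)) * m / 2 ^ k + ε * ((1 - ε) * m / 2 ^ k) =
        (Real.exp (-ε) - 1 + ε - ε ^ 2) * D := by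
      rw [hD]
      ring
    rw [h8]
    have h9 := Pool.Agent.H53.MC.exp_neg_quad h0.le
    have h10 : Real.exp (-ε) - 1 + ε - ε ^ 2 ≤ -(ε ^ 2 / 2) := by linarith
    have h12 : (Real.exp (-ε) - 1 + ε - ε ^ 2) * D ≤ -(ε ^ 2 / 2) * D :=
      mul_le_mul_of_nonneg_right h10 hD0
    linarith
  have hsub : Nat.card {F : KCNF n k m // ∃ x,
      (Nat.card {j // Falsified (toCl (F j)) x} : ℝ) < (1 - ε) * m / 2 ^ k} ≤
        (univ.biUnion Bx).card := by
    rw [Nat.card_eq_fintype_card, Fintype.card_subtype]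
    refine Finset.card_le_card fun F hF => ?_
    obtain ⟨x, hx⟩ := (Finset.mem_filter.1 hF).2
    exact Finset.mem_biUnion.2 ⟨x, Finset.mem_univ _, Finset.mem_filter.2 ⟨Finset.mem_univ _, hx⟩⟩
  have h17 : ((univ.biUnion Bx).card : ℝ) ≤ ∑ x : Fin n → Bool, ((Bx x).card : ℝ) := by
    exact_mod_cast Finset.card_biUnion_le
  have h18 : ∑ x : Fin n → Bool, ((Bx x).card : ℝ) ≤ 2 ^ n * (N * Real.exp (-2 * t)) := by
    refine (Finset.sum_le_sum fun x _ => hBx x).trans ?_
    rw [Finset.sum_const, Finset.card_univ, nsmul_eq_mul]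
    simp
  have h19 : (2 : ℝ) ^ t * (2 ^ n * Real.exp (-2 * t)) ≤ 1 := by
    have h20 : (2 : ℝ) ^ n ≤ 2 ^ t := pow_le_pow_right₀ (by norm_num) hnt
    have h21 : Real.exp (-2 * (t : ℝ)) = (Real.exp (-2)) ^ t := by
      rw [← Real.exp_nat_mul]
      congr 1
      ring
    have h22 : Real.exp (-2) ≤ 1 / 4 := by
      rw [Real.exp_neg, one_div]
      apply inv_anti₀ (by norm_num)
      have := Real.exp_one_gt_d9
      have h23 : Real.exp 2 = Real.exp 1 * Real.exp 1 := by
        rw [← Real.exp_add]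
        norm_num
      rw [h23]
      nlinarith
    have h24 : Real.exp (-2) ^ t ≤ (1 / 4) ^ t :=
      pow_le_pow_left₀ (Real.exp_pos _).le h22 t
    rw [h21]
    calc (2 : ℝ) ^ t * (2 ^ n * Real.exp (-2) ^ t) ≤ 2 ^ t * (2 ^ t * (1 / 4) ^ t) :=
          mul_le_mul_of_nonneg_left (mul_le_mul h20 h24 (by positivity) (by positivity))
            (by positivity)
      _ = 1 := by
          rw [← mul_pow, ← mul_pow]
          norm_num
  have h30 : (2 : ℝ) ^ t * ((univ.biUnion Bx).card : ℝ) ≤ N := by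
    calc (2 : ℝ) ^ t * ((univ.biUnion Bx).card : ℝ) ≤ 2 ^ t * (2 ^ n * (N * Real.exp (-2 * t))) :=
          mul_le_mul_of_nonneg_left (h17.trans h18) (by positivity)
      _ = (2 ^ t * (2 ^ n * Real.exp (-2 * t))) * N := by ring
      _ ≤ 1 * N := mul_le_mul_of_nonneg_right h19 hN0
      _ = N := one_mul N
  have h31 : 2 ^ t * (univ.biUnion Bx).card ≤ Nat.card (KCNF n k m) := by
    rw [hN] at h30
    exact_mod_cast h30
  exact (Nat.mul_le_mul_left _ hsub).trans h31

end Pool.Agent.H80.UK
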